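import Pool.Agent.W519.N

/-!
Closed preorders on spaces with an exhaustion of the non-isolated points are normal.
-/

open Set Topology Filter

namespace Pool.Agent.W519.N

/-- lower closure of a compact set is closed -/
theorem dn_closed_C {X : Type*} [TopologicalSpace X] {R : X → X → Prop} (hR : ClosedPreorder R)
    {K : Set X} (hK : IsCompact K) : IsClosed {z | ∃ x ∈ K, R z x} := by
  rw [← isOpen_compl_iff, isOpen_iff_forall_mem_open]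
  intro z hz
  have hsub : ({z} : Set X) ×ˢ K ⊆ {p : X × X | R p.1 p.2}ᶜ := by
    rintro ⟨a, b⟩ ⟨ha, hb⟩ hab
    rw [mem_singleton_iff] at ha
    apply hz
    refine ⟨b, hb, ?_⟩
    rw [← ha]
    exact hab
  obtain ⟨u, v, hu, _, hzu, hKv, huv⟩ :=
    generalized_tube_lemma isCompact_singleton hK hR.closed.isOpen_compl hsub
  refine ⟨u, ?_, hu, hzu rfl⟩
  rintro a ha ⟨x, hx, hax⟩
  exact huv (⟨ha, hKv hx⟩ : (a, x) ∈ u ×ˢ v) hax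

/-- upper closure of a compact set is closed -/
theorem up_closed_C {X : Type*} [TopologicalSpace X] {R : X → X → Prop} (hR : ClosedPreorder R)
    {K : Set X} (hK : IsCompact K) : IsClosed {z | ∃ x ∈ K, R x z} := by
  rw [← isOpen_compl_iff, isOpen_iff_forall_mem_open]
  intro z hz
  have hsub : K ×ˢ ({z} : Set X) ⊆ {p : X × X | R p.1 p.2}ᶜ := by
    rintro ⟨a, b⟩ ⟨ha, hb⟩ hab
    rw [mem_singleton_iff] at hb
    apply hz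
    refine ⟨a, ha, ?_⟩
    rw [← hb]
    exact hab
  obtain ⟨u, v, _, hv, hKu, hzv, huv⟩ :=
    generalized_tube_lemma hK isCompact_singleton hR.closed.isOpen_compl hsub
  refine ⟨v, ?_, hv, hzv rfl⟩
  rintro a ha ⟨x, hx, hax⟩
  exact huv (⟨hKu hx, ha⟩ : (x, a) ∈ u ×ˢ v) hax

/-- separation inside a compact closed set -/
theorem sep_C {X : Type*} [TopologicalSpace X] {R : X → X → Prop} (hR : ClosedPreorder R)
    {C0 : Set X} (hC : IsCompact C0) (hCc : IsClosed C0) {A B : Set X} (hA : IsClosed A)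
    (hB : IsClosed B) (hAC : A ⊆ C0) (hBC : B ⊆ C0) (hAd : ∀ z ∈ C0, ∀ a ∈ A, R z a → z ∈ A)
    (hBi : ∀ z ∈ C0, ∀ b ∈ B, R b z → z ∈ B) (hAB : Disjoint A B) :
    ∃ P Q : Set X, IsClosed P ∧ IsClosed Q ∧ P ⊆ C0 ∧ Q ⊆ C0 ∧
      (∀ z ∈ C0, ∀ x ∈ P, R x z → z ∈ P) ∧ (∀ z ∈ C0, ∀ x ∈ Q, R z x → z ∈ Q) ∧
      Disjoint A P ∧ Disjoint B Q ∧ C0 ⊆ P ∪ Q := by
  have hAk : IsCompact A := hC.of_isClosed_subset hA hAC
  have hBk : IsCompact B := hC.of_isClosed_subset hB hBC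
  have hsub : B ×ˢ A ⊆ {p : X × X | R p.1 p.2}ᶜ := by
    rintro ⟨b, a⟩ ⟨hb, ha⟩ hba
    exact Set.disjoint_left.1 hAB (hAd b (hBC hb) a ha hba) hb
  obtain ⟨G', G, hG', hG, hBG, hAG, hGG⟩ :=
    generalized_tube_lemma hBk hAk hR.closed.isOpen_compl hsub
  have hK1 : IsCompact (C0 \ G) := hC.diff hG
  have hK2 : IsCompact (C0 \ G') := hC.diff hG'
  refine ⟨{z | ∃ x ∈ C0 \ G, R x z} ∩ C0, {z | ∃ x ∈ C0 \ G', R z x} ∩ C0,
    (up_closed_C hR hK1).inter hCc, (dn_closed_C hR hK2).inter hCc, inter_subset_right,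
    inter_subset_right, ?_, ?_, ?_, ?_, ?_⟩
  · rintro z hz x ⟨⟨y, hy, hyx⟩, _⟩ hxz
    exact ⟨⟨y, hy, hR.trans _ _ _ hyx hxz⟩, hz⟩
  · rintro z hz x ⟨⟨y, hy, hxy⟩, _⟩ hzx
    exact ⟨⟨y, hy, hR.trans _ _ _ hzx hxy⟩, hz⟩
  · rw [Set.disjoint_left]
    rintro a ha ⟨⟨x, hx, hxa⟩, _⟩
    exact hx.2 (hAG (hAd x hx.1 a ha hxa))
  · rw [Set.disjoint_left]
    rintro b hb ⟨⟨x, hx, hbx⟩, _⟩
    exact hx.2 (hBG (hBi x hx.1 b hb hbx))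
  · intro x hx
    by_cases h1 : x ∈ G
    · by_cases h2 : x ∈ G'
      · exact (hGG (⟨h2, h1⟩ : (x, x) ∈ G' ×ˢ G) (hR.refl x)).elim
      · exact Or.inr ⟨⟨x, ⟨hx, h2⟩, hR.refl x⟩, hx⟩
    · exact Or.inl ⟨⟨x, ⟨hx, h1⟩, hR.refl x⟩, hx⟩

/-- the compact step -/
theorem step_C {X : Type*} [TopologicalSpace X] {R : X → X → Prop} (hR : ClosedPreorder R)
    {C0 : Set X} (hC : IsCompact C0) (hCc : IsClosed C0) {A B : Set X} (hA : IsClosed A)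
    (hB : IsClosed B) (hAC : A ⊆ C0) (hBC : B ⊆ C0) (hAd : ∀ z ∈ C0, ∀ a ∈ A, R z a → z ∈ A)
    (hBi : ∀ z ∈ C0, ∀ b ∈ B, R b z → z ∈ B) (hAB : Disjoint A B) :
    ∃ A' B' O O' : Set X, IsClosed A' ∧ IsClosed B' ∧ A' ⊆ C0 ∧ B' ⊆ C0 ∧ Disjoint A' B' ∧
      (∀ z ∈ C0, ∀ x ∈ A', R z x → z ∈ A') ∧ (∀ z ∈ C0, ∀ x ∈ B', R x z → z ∈ B') ∧
      IsOpen O ∧ IsOpen O' ∧ A ⊆ O ∧ O ∩ C0 ⊆ A' ∧ B ⊆ O' ∧ O' ∩ C0 ⊆ B' := by
  obtain ⟨P1, Q1, hP1, hQ1, _, hQ1C, _, hQ1d, hAP1, hBQ1, hcov1⟩ :=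
    sep_C hR hC hCc hA hB hAC hBC hAd hBi hAB
  obtain ⟨P2, Q2, hP2, hQ2, hP2C, _, hP2i, _, hAP2, hBQ2, hcov2⟩ :=
    sep_C hR hC hCc hQ1 hB hQ1C hBC hQ1d hBi hBQ1.symm
  refine ⟨Q1, P2, P1ᶜ, Q2ᶜ, hQ1, hP2, hQ1C, hP2C, hAP2, hQ1d, hP2i, hP1.isOpen_compl,
    hQ2.isOpen_compl, ?_, ?_, ?_, ?_⟩
  · intro a ha h
    exact Set.disjoint_left.1 hAP1 ha h
  · rintro x ⟨hx1, hx2⟩
    exact (hcov1 hx2).resolve_left hx1
  · intro b hb h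
    exact Set.disjoint_left.1 hBQ2 hb h
  · rintro x ⟨hx1, hx2⟩
    exact (hcov2 hx2).resolve_right hx1

/-- the invariant -/
def Inv_C {X : Type*} [TopologicalSpace X] (R : X → X → Prop) (A B C0 : Set X)
    (p : Set X × Set X) : Prop :=
  IsClosed p.1 ∧ IsClosed p.2 ∧ p.1 ⊆ C0 ∧ p.2 ⊆ C0 ∧ Disjoint p.1 p.2 ∧
    (∀ z ∈ C0, ∀ x ∈ p.1, R z x → z ∈ p.1) ∧ (∀ z ∈ C0, ∀ x ∈ p.2, R x z → z ∈ p.2) ∧
    A ∩ C0 ⊆ p.1 ∧ B ∩ C0 ⊆ p.2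

/-- the relation between consecutive steps -/
def Rel_C {X : Type*} [TopologicalSpace X] (R : X → X → Prop) (C1 : Set X)
    (p q : Set X × Set X) : Prop :=
  ∃ O O' : Set X, IsOpen O ∧ IsOpen O' ∧ {z | ∃ x ∈ p.1, R z x} ∩ C1 ⊆ O ∧ O ∩ C1 ⊆ q.1 ∧
    {z | ∃ x ∈ p.2, R x z} ∩ C1 ⊆ O' ∧ O' ∩ C1 ⊆ q.2

theorem next_C {X : Type*} [TopologicalSpace X] {R : X → X → Prop} (hR : ClosedPreorder R)
    {A B : Set X} (hA : IsClosed A) (hAd : Dec R A) (hB : IsClosed B) (hBi : Inc R B)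
    (hAB : Disjoint A B) {C0 C1 : Set X} (hC0 : IsCompact C0) (hC1 : IsCompact C1)
    (hC1c : IsClosed C1) (p : Set X × Set X) (hp : Inv_C R A B C0 p) :
    ∃ q, Inv_C R A B C1 q ∧ Rel_C R C1 p q := by
  obtain ⟨h1, h2, h3, h4, h5, h6, h7, h8, h9⟩ := hp
  have k1 : IsCompact p.1 := hC0.of_isClosed_subset h1 h3
  have k2 : IsCompact p.2 := hC0.of_isClosed_subset h2 h4
  have hdis : Disjoint (({z | ∃ x ∈ p.1, R z x} ∪ A) ∩ C1) (({z | ∃ x ∈ p.2, R x z} ∪ B) ∩ C1) := by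
    rw [Set.disjoint_left]
    rintro x ⟨hx1, _⟩ ⟨hx2, _⟩
    rcases hx1 with ⟨a, ha, hxa⟩ | hxA
    · rcases hx2 with ⟨b, hb, hbx⟩ | hxB
      · exact Set.disjoint_left.1 h5 (h6 b (h4 hb) a ha (hR.trans _ _ _ hbx hxa)) hb
      · exact Set.disjoint_left.1 h5 ha (h9 ⟨hBi x a hxa hxB, h3 ha⟩)
    · rcases hx2 with ⟨b, hb, hbx⟩ | hxB
      · exact Set.disjoint_left.1 h5 (h8 ⟨hAd b x hbx hxA, h4 hb⟩) hb
      · exact Set.disjoint_left.1 hAB hxA hxB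
  obtain ⟨A', B', O, O', a1, a2, a3, a4, a5, a6, a7, a8, a9, a10, a11, a12, a13⟩ :=
    step_C hR hC1 hC1c (A := ({z | ∃ x ∈ p.1, R z x} ∪ A) ∩ C1)
      (B := ({z | ∃ x ∈ p.2, R x z} ∪ B) ∩ C1)
      (((dn_closed_C hR k1).union hA).inter hC1c) (((up_closed_C hR k2).union hB).inter hC1c)
      inter_subset_right inter_subset_right
      (by
        rintro z hz x ⟨hx, _⟩ hzx
        rcases hx with ⟨a, ha, hxa⟩ | hxA
        · exact ⟨Or.inl ⟨a, ha, hR.trans _ _ _ hzx hxa⟩, hz⟩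
        · exact ⟨Or.inr (hAd z x hzx hxA), hz⟩)
      (by
        rintro z hz x ⟨hx, _⟩ hxz
        rcases hx with ⟨b, hb, hbx⟩ | hxB
        · exact ⟨Or.inl ⟨b, hb, hR.trans _ _ _ hbx hxz⟩, hz⟩
        · exact ⟨Or.inr (hBi x z hxz hxB), hz⟩)
      hdis
  refine ⟨(A', B'), ⟨a1, a2, a3, a4, a5, a6, a7, ?_, ?_⟩, O, O', a8, a9, ?_, a11, ?_, a13⟩
  · rintro x ⟨hx, hx1⟩
    exact a11 ⟨a10 ⟨Or.inr hx, hx1⟩, hx1⟩
  · rintro x ⟨hx, hx1⟩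
    exact a13 ⟨a12 ⟨Or.inr hx, hx1⟩, hx1⟩
  · rintro x ⟨hx, hx1⟩
    exact a10 ⟨Or.inl hx, hx1⟩
  · rintro x ⟨hx, hx1⟩
    exact a12 ⟨Or.inl hx, hx1⟩

theorem allNormal_of_exhaustion {X : Type*} [TopologicalSpace X] (C : ℕ → Set X)
    (hC : ∀ n, IsCompact (C n)) (hCc : ∀ n, IsClosed (C n)) (hCi : ∀ n, C n ⊆ interior (C (n + 1)))
    (hX : NonIso X ⊆ ⋃ n, C n) : AllNormal X := by
  intro R hR A B hA hAd hB hBi hAB
  have hCs : ∀ n, C n ⊆ C (n + 1) := fun n => (hCi n).trans interior_subset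
  have hCm : Monotone C := monotone_nat_of_le_succ hCs
  -- start
  have h0 : ∃ p, Inv_C R A B (C 0) p := by
    obtain ⟨A', B', O, O', a1, a2, a3, a4, a5, a6, a7, a8, a9, a10, a11, a12, a13⟩ :=
      step_C hR (hC 0) (hCc 0) (A := A ∩ C 0) (B := B ∩ C 0) (hA.inter (hCc 0)) (hB.inter (hCc 0))
        inter_subset_right inter_subset_right
        (fun z hz x hx hzx => ⟨hAd z x hzx hx.1, hz⟩)
        (fun z hz x hx hxz => ⟨hBi x z hxz hx.1, hz⟩)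
        (hAB.mono inter_subset_left inter_subset_left)
    exact ⟨(A', B'), a1, a2, a3, a4, a5, a6, a7, fun x hx => a11 ⟨a10 hx, hx.2⟩,
      fun x hx => a13 ⟨a12 hx, hx.2⟩⟩
  obtain ⟨p0, hp0⟩ := h0
  have hstep : ∀ (n : ℕ) (p : Set X × Set X), Inv_C R A B (C n) p →
      ∃ q, Inv_C R A B (C (n + 1)) q ∧ Rel_C R (C (n + 1)) p q := fun n p hp =>
    next_C hR hA hAd hB hBi hAB (hC n) (hC (n + 1)) (hCc (n + 1)) p hp
  choose! f hf using hstep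
  let s : ℕ → Set X × Set X := fun n => Nat.rec p0 (fun n p => f n p) n
  have hs : ∀ n, Inv_C R A B (C n) (s n) := by
    intro n
    induction n with
    | zero => exact hp0
    | succ n ih => exact (hf n (s n) ih).1
  have hrel : ∀ n, Rel_C R (C (n + 1)) (s n) (s (n + 1)) := fun n => (hf n (s n) (hs n)).2
  have hm1 : Monotone fun n => (s n).1 := by
    apply monotone_nat_of_le_succ
    intro n x hx
    obtain ⟨O, O', _, _, b1, b2, _, _⟩ := hrel n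
    have hxC : x ∈ C (n + 1) := hCs n ((hs n).2.2.1 hx)
    exact b2 ⟨b1 ⟨⟨x, hx, hR.refl x⟩, hxC⟩, hxC⟩
  have hm2 : Monotone fun n => (s n).2 := by
    apply monotone_nat_of_le_succ
    intro n x hx
    obtain ⟨O, O', _, _, _, _, b1, b2⟩ := hrel n
    have hxC : x ∈ C (n + 1) := hCs n ((hs n).2.2.2.1 hx)
    exact b2 ⟨b1 ⟨⟨x, hx, hR.refl x⟩, hxC⟩, hxC⟩
  set W : Set X := ⋃ n, C n with hW
  set UW : Set X := ⋃ n, (s n).1 with hUW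
  set VW : Set X := ⋃ n, (s n).2 with hVW
  have hUo : IsOpen UW := by
    rw [isOpen_iff_forall_mem_open]
    intro x hx
    rw [hUW, mem_iUnion] at hx
    obtain ⟨n, hn⟩ := hx
    obtain ⟨O, O', hO, _, b1, b2, _, _⟩ := hrel n
    have hxC : x ∈ interior (C (n + 1)) := hCi n ((hs n).2.2.1 hn)
    refine ⟨O ∩ interior (C (n + 1)), ?_, hO.inter isOpen_interior,
      b1 ⟨⟨x, hn, hR.refl x⟩, interior_subset hxC⟩, hxC⟩
    rintro y ⟨hy1, hy2⟩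
    exact mem_iUnion.2 ⟨n + 1, b2 ⟨hy1, interior_subset hy2⟩⟩
  have hVo : IsOpen VW := by
    rw [isOpen_iff_forall_mem_open]
    intro x hx
    rw [hVW, mem_iUnion] at hx
    obtain ⟨n, hn⟩ := hx
    obtain ⟨O, O', _, hO', _, _, b1, b2⟩ := hrel n
    have hxC : x ∈ interior (C (n + 1)) := hCi n ((hs n).2.2.2.1 hn)
    refine ⟨O' ∩ interior (C (n + 1)), ?_, hO'.inter isOpen_interior,
      b1 ⟨⟨x, hn, hR.refl x⟩, interior_subset hxC⟩, hxC⟩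
    rintro y ⟨hy1, hy2⟩
    exact mem_iUnion.2 ⟨n + 1, b2 ⟨hy1, interior_subset hy2⟩⟩
  have hUsub : UW ⊆ W := iUnion_mono fun n => (hs n).2.2.1
  have hVsub : VW ⊆ W := iUnion_mono fun n => (hs n).2.2.2.1
  have hUd : ∀ z ∈ W, ∀ x ∈ UW, R z x → z ∈ UW := by
    intro z hz x hx hzx
    obtain ⟨m, hm⟩ := mem_iUnion.1 hz
    obtain ⟨n, hn⟩ := mem_iUnion.1 hx
    exact mem_iUnion.2 ⟨max m n, (hs (max m n)).2.2.2.2.2.1 z (hCm (le_max_left m n) hm) x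
      (hm1 (le_max_right m n) hn) hzx⟩
  have hVi : ∀ z ∈ W, ∀ x ∈ VW, R x z → z ∈ VW := by
    intro z hz x hx hxz
    obtain ⟨m, hm⟩ := mem_iUnion.1 hz
    obtain ⟨n, hn⟩ := mem_iUnion.1 hx
    exact mem_iUnion.2 ⟨max m n, (hs (max m n)).2.2.2.2.2.2.1 z (hCm (le_max_left m n) hm) x
      (hm2 (le_max_right m n) hn) hxz⟩
  have hUVW : ∀ x, x ∈ UW → x ∈ VW → False := by
    intro x hx hx'
    obtain ⟨m, hm⟩ := mem_iUnion.1 hx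
    obtain ⟨n, hn⟩ := mem_iUnion.1 hx'
    exact Set.disjoint_left.1 (hs (max m n)).2.2.2.2.1 (hm1 (le_max_left m n) hm)
      (hm2 (le_max_right m n) hn)
  have hAW : A ∩ W ⊆ UW := by
    rintro x ⟨hx, hxW⟩
    obtain ⟨m, hm⟩ := mem_iUnion.1 hxW
    exact mem_iUnion.2 ⟨m, (hs m).2.2.2.2.2.2.2.1 ⟨hx, hm⟩⟩
  have hBW : B ∩ W ⊆ VW := by
    rintro x ⟨hx, hxW⟩
    obtain ⟨m, hm⟩ := mem_iUnion.1 hxW
    exact mem_iUnion.2 ⟨m, (hs m).2.2.2.2.2.2.2.2 ⟨hx, hm⟩⟩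
  have hiso : ∀ x, x ∉ W → IsOpen ({x} : Set X) := by
    intro x hx
    by_contra hcon
    exact hx (hX hcon)
  -- saturation
  set U1 : Set X := {z | ∃ x ∈ UW, R z x} with hU1
  set V1 : Set X := {z | ∃ x ∈ VW, R x z} with hV1
  have hUWU1 : UW ⊆ U1 := fun x hx => ⟨x, hx, hR.refl x⟩
  have hVWV1 : VW ⊆ V1 := fun x hx => ⟨x, hx, hR.refl x⟩
  have hU1o : IsOpen U1 := by
    rw [isOpen_iff_forall_mem_open]
    intro z hz
    by_cases hzW : z ∈ W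
    · obtain ⟨x, hx, hzx⟩ := hz
      exact ⟨UW, hUWU1, hUo, hUd z hzW x hx hzx⟩
    · exact ⟨{z}, singleton_subset_iff.2 hz, hiso z hzW, rfl⟩
  have hV1o : IsOpen V1 := by
    rw [isOpen_iff_forall_mem_open]
    intro z hz
    by_cases hzW : z ∈ W
    · obtain ⟨x, hx, hxz⟩ := hz
      exact ⟨VW, hVWV1, hVo, hVi z hzW x hx hxz⟩
    · exact ⟨{z}, singleton_subset_iff.2 hz, hiso z hzW, rfl⟩
  have hUV1 : ∀ z, z ∈ U1 → z ∈ V1 → False := by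
    rintro z ⟨u, hu, hzu⟩ ⟨v, hv, hvz⟩
    exact hUVW v (hUd v (hVsub hv) u hu (hR.trans _ _ _ hvz hzu)) hv
  have hABd : ∀ x, x ∈ A → x ∈ B → False := fun x h1 h2 => Set.disjoint_left.1 hAB h1 h2
  refine ⟨(U1 \ B) ∪ A, (V1 \ A) ∪ B, ?_, ?_, ?_, ?_, subset_union_right, subset_union_right, ?_⟩
  · rw [isOpen_iff_forall_mem_open]
    intro x hx
    by_cases hxW : x ∈ U1 \ B
    · exact ⟨U1 \ B, subset_union_left, hU1o.sdiff hB, hxW⟩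
    · have hxA : x ∈ A := hx.resolve_left hxW
      have hxn : x ∉ W := by
        intro h
        exact hxW ⟨hUWU1 (hAW ⟨hxA, h⟩), fun h2 => hABd x hxA h2⟩
      exact ⟨{x}, singleton_subset_iff.2 hx, hiso x hxn, rfl⟩
  · rintro z x hzx (⟨⟨u, hu, hxu⟩, hxB⟩ | hxA)
    · exact Or.inl ⟨⟨u, hu, hR.trans _ _ _ hzx hxu⟩, fun h => hxB (hBi z x hzx h)⟩
    · exact Or.inr (hAd z x hzx hxA)
  · rw [isOpen_iff_forall_mem_open]
    intro x hx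
    by_cases hxW : x ∈ V1 \ A
    · exact ⟨V1 \ A, subset_union_left, hV1o.sdiff hA, hxW⟩
    · have hxB : x ∈ B := hx.resolve_left hxW
      have hxn : x ∉ W := by
        intro h
        exact hxW ⟨hVWV1 (hBW ⟨hxB, h⟩), fun h2 => hABd x h2 hxB⟩
      exact ⟨{x}, singleton_subset_iff.2 hx, hiso x hxn, rfl⟩
  · rintro x z hxz (⟨⟨v, hv, hvx⟩, hxA⟩ | hxB)
    · exact Or.inl ⟨⟨v, hv, hR.trans _ _ _ hvx hxz⟩, fun h => hxA (hAd x z hxz h)⟩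
    · exact Or.inr (hBi x z hxz hxB)
  · rw [Set.disjoint_left]
    rintro x (⟨h1, h2⟩ | h1) (⟨h3, h4⟩ | h3)
    · exact hUV1 x h1 h3
    · exact h2 h3
    · exact h4 h1
    · exact hABd x h1 h3

end Pool.Agent.W519.N
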