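import Pool.Agent.W823.QT.Stm

set_option autoImplicit false

namespace Pool.Agent.W271.QTRUN

open Pool.Agent.W823.QT
open scoped ENNReal NNReal

/-- removing an arc -/
theorem erase_sum (E : Finset (ℕ × ℕ)) (w : ℕ × ℕ → ℝ≥0∞) (e : ℕ × ℕ)
    (g : Finset (ℕ × ℕ) → ℝ≥0∞) (hg : ∀ S, g (S.erase e) = g S) :
    ∑ S ∈ E.powerset, (∏ x ∈ S, w x) * (g S * (if e ∈ S then 1 else 0)) ≤
      w e * ∑ S ∈ E.powerset, (∏ x ∈ S, w x) * g S := by
  classical
  have h1 : ∑ S ∈ E.powerset, (∏ x ∈ S, w x) * (g S * (if e ∈ S then 1 else 0)) =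
      ∑ S ∈ E.powerset.filter (fun S => e ∈ S), w e * ((∏ x ∈ S.erase e, w x) * g (S.erase e)) := by
    rw [Finset.sum_filter]
    apply Finset.sum_congr rfl
    intro S _
    by_cases h : e ∈ S
    · rw [if_pos h, if_pos h, mul_one, hg, ← mul_assoc, Finset.mul_prod_erase S w h]
    · rw [if_neg h, if_neg h, mul_zero, mul_zero]
  rw [h1, ← Finset.mul_sum]
  have h2 : ∑ S ∈ E.powerset.filter (fun S => e ∈ S), (∏ x ∈ S.erase e, w x) * g (S.erase e) =
      ∑ S ∈ (E.powerset.filter (fun S => e ∈ S)).image (fun S => S.erase e),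
        (∏ x ∈ S, w x) * g S := by
    rw [Finset.sum_image]
    intro S hS S' hS' h
    have hS1 : e ∈ S := (Finset.mem_filter.1 hS).2
    have hS2 : e ∈ S' := (Finset.mem_filter.1 hS').2
    have h' : S.erase e = S'.erase e := h
    rw [← Finset.insert_erase hS1, ← Finset.insert_erase hS2, h']
  rw [h2]
  apply mul_le_mul_right
  apply Finset.sum_le_sum_of_subset
  intro S hS
  rw [Finset.mem_image] at hS
  obtain ⟨S', hS', rfl⟩ := hS
  rw [Finset.mem_filter, Finset.mem_powerset] at hS'
  rw [Finset.mem_powerset]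
  exact (Finset.erase_subset _ _).trans hS'.1

/-- weights of the arcs starting at `a` -/
theorem start_sum (ε : ℕ → ℝ≥0∞) (N a : ℕ) :
    ∑ e ∈ (arcs N).filter (fun e => e.1 = a), ((e.2 - e.1 : ℕ) : ℝ≥0∞) * lw ε e ≤
      ∑' k : ℕ, (k : ℝ≥0∞) * ε k := by
  classical
  have h1 : ∑ e ∈ (arcs N).filter (fun e => e.1 = a), ((e.2 - e.1 : ℕ) : ℝ≥0∞) * lw ε e =
      ∑ k ∈ ((arcs N).filter (fun e => e.1 = a)).image (fun e : ℕ × ℕ => (e.2 - e.1 : ℕ)),
        ((k : ℕ) : ℝ≥0∞) * ε k := by
    rw [Finset.sum_image]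
    · apply Finset.sum_congr rfl
      intro e _
      rfl
    · intro e he e' he' h
      have h1 := Finset.mem_filter.1 he
      have h2 := Finset.mem_filter.1 he'
      have h3 : e.1 < e.2 := (Finset.mem_filter.1 h1.1).2
      have h4 : e'.1 < e'.2 := (Finset.mem_filter.1 h2.1).2
      have h5 : e.2 - e.1 = e'.2 - e'.1 := h
      have h6 := h1.2
      have h7 := h2.2
      apply Prod.ext
      · omega
      · omega
  rw [h1]
  exact ENNReal.sum_le_tsum _

theorem main : RUN_T := by
  classical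
  intro ε hε N D hD hcomb
  obtain ⟨hfin, hsum⟩ := hε
  set w : ℕ × ℕ → ℝ≥0∞ := lw ε with hw
  set P : ℝ≥0∞ := ∏ e ∈ arcs N, (1 + w e) with hP
  have hwfin : ∀ e, w e ≠ ∞ := fun e => hfin _
  have hPt : P ≠ ∞ := ENNReal.prod_ne_top fun e _ => ENNReal.add_ne_top.2 ⟨ENNReal.one_ne_top, hwfin e⟩
  have hP0 : P ≠ 0 := by
    rw [hP, Finset.prod_ne_zero_iff]
    intro e _ h0
    rw [add_eq_zero] at h0
    exact one_ne_zero h0.1
  have hT1 : ∑ S ∈ (arcs N).powerset, ∏ e ∈ S, w e = P := (Finset.prod_one_add _).symm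
  set T : ℕ → ℝ≥0∞ := fun a => wsum w N (fun S => ind (D a S)) with hT
  have hind1 : ∀ p : Prop, ind p ≤ 1 := by
    intro p
    unfold ind
    split_ifs <;> simp
  have hTle : ∀ a, T a ≤ P := by
    intro a
    rw [← hT1]
    show ∑ S ∈ (arcs N).powerset, (∏ e ∈ S, w e) * ind (D a S) ≤ _
    apply Finset.sum_le_sum
    intro S _
    calc (∏ e ∈ S, w e) * ind (D a S) ≤ (∏ e ∈ S, w e) * 1 := by
          exact mul_le_mul_right (hind1 _) _
      _ = _ := mul_one _
  set X : ℝ≥0∞ := ∑ a ∈ Finset.range (N + 1), T a with hX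
  have hXfin : X ≠ ∞ := by
    rw [hX]
    apply (ENNReal.sum_lt_top.2 _).ne
    intro a _
    exact lt_of_le_of_lt (hTle a) hPt.lt_top
  -- the combinatorial hypothesis
  have hS : ∀ S ∈ (arcs N).powerset, ∑ a ∈ Finset.range (N + 1), ind (D a S) ≤
      1 + ∑ a ∈ Finset.range (N + 1), ∑ e ∈ (arcs N).filter (fun e => e.1 = a),
        ((e.2 - e.1 : ℕ) : ℝ≥0∞) * (ind (D a S) * (if e ∈ S then 1 else 0)) := by
    intro S hSm
    have hSsub := Finset.mem_powerset.1 hSm
    have h1 : ∑ a ∈ Finset.range (N + 1), ind (D a S) =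
        ((((Finset.range (N + 1)).filter fun a => D a S).card : ℕ) : ℝ≥0∞) := by
      rw [Finset.card_filter, Nat.cast_sum]
      apply Finset.sum_congr rfl
      intro a _
      unfold ind
      split_ifs <;> simp
    rw [h1]
    have h2 := hcomb S hSsub
    have h3 : ((((Finset.range (N + 1)).filter fun a => D a S).card : ℕ) : ℝ≥0∞) ≤
        ((1 + ∑ a ∈ (Finset.range (N + 1)).filter (fun a => D a S),
          ∑ e ∈ S.filter (fun e => e.1 = a), (e.2 - e.1) : ℕ) : ℝ≥0∞) := by
      exact_mod_cast h2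
    refine h3.trans (le_of_eq ?_)
    rw [Nat.cast_add, Nat.cast_one, Nat.cast_sum, Finset.sum_filter]
    congr 1
    apply Finset.sum_congr rfl
    intro a _
    by_cases hDa : D a S
    · rw [if_pos hDa, Nat.cast_sum]
      have h4 : ind (D a S) = 1 := by unfold ind; rw [if_pos hDa]
      rw [h4]
      have h5 : S.filter (fun e => e.1 = a) =
          ((arcs N).filter (fun e => e.1 = a)).filter (fun e => e ∈ S) := by
        ext e
        simp only [Finset.mem_filter]
        constructor
        · rintro ⟨h6, h7⟩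
          exact ⟨⟨hSsub h6, h7⟩, h6⟩
        · rintro ⟨⟨-, h7⟩, h6⟩
          exact ⟨h6, h7⟩
      rw [h5, Finset.sum_filter]
      apply Finset.sum_congr rfl
      intro e _
      split_ifs <;> simp
    · rw [if_neg hDa]
      have h4 : ind (D a S) = 0 := by unfold ind; rw [if_neg hDa]
      rw [h4]
      simp
  have hind : ∀ a (e : ℕ × ℕ), e.1 = a → ∀ S, ind (D a (S.erase e)) = ind (D a S) := by
    intro a e hea S
    have h1 : D a (S.erase e) ↔ D a S := by
      rw [hD a (S.erase e), hD a S]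
      have h2 : (S.erase e).filter (fun e => e.1 < a) = S.filter (fun e => e.1 < a) := by
        ext x
        simp only [Finset.mem_filter, Finset.mem_erase]
        constructor
        · rintro ⟨⟨-, h3⟩, h4⟩
          exact ⟨h3, h4⟩
        · rintro ⟨h3, h4⟩
          refine ⟨⟨?_, h3⟩, h4⟩
          rintro rfl
          omega
      rw [h2]
    rw [show (D a (S.erase e)) = D a S from propext h1]
  have hkey : X ≤ P + X * (1 / 8) := by
    calc X = ∑ S ∈ (arcs N).powerset, (∏ e ∈ S, w e) *
          ∑ a ∈ Finset.range (N + 1), ind (D a S) := by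
          rw [hX, hT]
          show ∑ a ∈ Finset.range (N + 1), ∑ S ∈ (arcs N).powerset,
            (∏ e ∈ S, w e) * ind (D a S) = _
          rw [Finset.sum_comm]
          apply Finset.sum_congr rfl
          intro S _
          rw [Finset.mul_sum]
      _ ≤ ∑ S ∈ (arcs N).powerset, (∏ e ∈ S, w e) *
          (1 + ∑ a ∈ Finset.range (N + 1), ∑ e ∈ (arcs N).filter (fun e => e.1 = a),
        ((e.2 - e.1 : ℕ) : ℝ≥0∞) * (ind (D a S) * (if e ∈ S then 1 else 0))) := by
          apply Finset.sum_le_sum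
          intro S hSm
          exact mul_le_mul_right (hS S hSm) _
      _ = P + ∑ a ∈ Finset.range (N + 1), ∑ e ∈ (arcs N).filter (fun e => e.1 = a),
          ((e.2 - e.1 : ℕ) : ℝ≥0∞) * ∑ S ∈ (arcs N).powerset,
            (∏ e ∈ S, w e) * (ind (D a S) * (if e ∈ S then 1 else 0)) := by
          simp only [mul_add, mul_one, Finset.sum_add_distrib]
          rw [hT1]
          congr 1
          simp only [Finset.mul_sum]
          rw [Finset.sum_comm]
          apply Finset.sum_congr rfl
          intro a _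
          rw [Finset.sum_comm]
          apply Finset.sum_congr rfl
          intro e _
          apply Finset.sum_congr rfl
          intro S _
          ring
      _ ≤ P + ∑ a ∈ Finset.range (N + 1), ∑ e ∈ (arcs N).filter (fun e => e.1 = a),
          ((e.2 - e.1 : ℕ) : ℝ≥0∞) * (w e * T a) := by
          apply add_le_add le_rfl
          apply Finset.sum_le_sum
          intro a _
          apply Finset.sum_le_sum
          intro e he
          apply mul_le_mul_right
          exact erase_sum (arcs N) w e (fun S => ind (D a S)) (hind a e (Finset.mem_filter.1 he).2)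
      _ = P + ∑ a ∈ Finset.range (N + 1), T a *
          ∑ e ∈ (arcs N).filter (fun e => e.1 = a), ((e.2 - e.1 : ℕ) : ℝ≥0∞) * w e := by
          congr 1
          apply Finset.sum_congr rfl
          intro a _
          rw [Finset.mul_sum]
          apply Finset.sum_congr rfl
          intro e _
          ring
      _ ≤ P + ∑ a ∈ Finset.range (N + 1), T a * (1 / 8) := by
          apply add_le_add le_rfl
          apply Finset.sum_le_sum
          intro a _
          apply mul_le_mul_right
          exact (start_sum ε N a).trans hsum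
      _ = P + X * (1 / 8) := by rw [hX, Finset.sum_mul]
  have hfinal : X ≤ 8 / 7 * P := by
    lift X to ℝ≥0 using hXfin with x hx
    lift P to ℝ≥0 using hPt with p hp
    have h1 : (x : ℝ≥0∞) ≤ ((p + x * (1 / 8) : ℝ≥0) : ℝ≥0∞) := by
      refine hkey.trans (le_of_eq ?_)
      push_cast
      norm_num
    have h2 : x ≤ p + x * (1 / 8) := by exact_mod_cast h1
    have h3 : x ≤ 8 / 7 * p := by
      have h4 : (x : ℝ) ≤ p + x * (1 / 8) := by exact_mod_cast h2
      have h5 : (x : ℝ) ≤ 8 / 7 * p := by linarith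
      exact_mod_cast h5
    have h4 : (x : ℝ≥0∞) ≤ ((8 / 7 * p : ℝ≥0) : ℝ≥0∞) := by exact_mod_cast h3
    refine h4.trans (le_of_eq ?_)
    push_cast
    norm_num
  show ∑ a ∈ Finset.range (N + 1), T a / P ≤ 8 / 7
  have h6 : ∑ a ∈ Finset.range (N + 1), T a / P = X / P := by
    simp only [div_eq_mul_inv]
    rw [hX, Finset.sum_mul]
  rw [h6]
  exact ENNReal.div_le_of_le_mul hfinal

end Pool.Agent.W271.QTRUN
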