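import Pool.Agent.W464.WLP.Defs2

set_option autoImplicit false

namespace Pool.Agent.W271.WLP

open Pool.Agent.W464.WLP

theorem tn : TN := by
  intro K _ k nd d hd ψ h
  classical
  set g : Polynomial K := Lagrange.interpolate Finset.univ nd.τ ψ with hg
  have hinj : Set.InjOn nd.τ ((Finset.univ : Finset (Fin (k + 1))) : Set (Fin (k + 1))) :=
    nd.inj.injOn
  have hev : ∀ r, g.eval (nd.τ r) = ψ r := fun r =>
    Lagrange.eval_interpolate_at_node ψ hinj (Finset.mem_univ r)
  have hdeg : g.degree < ((k + 1 : ℕ) : WithBot ℕ) := by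
    have := Lagrange.degree_interpolate_lt ψ hinj
    rw [Finset.card_univ, Fintype.card_fin] at this
    exact this
  have hnd : g.natDegree ≤ d := by
    by_contra hcon
    push Not at hcon
    set D := g.natDegree with hD
    have hg0 : g ≠ 0 := by
      intro h0
      rw [h0] at hD
      simp at hD
      omega
    have hDk : D ≤ k := by
      have h1 := Polynomial.degree_eq_natDegree hg0
      rw [h1] at hdeg
      have h2 : g.natDegree < k + 1 := by exact_mod_cast hdeg
      omega
    have hj := h (k + 2 - D) (by omega) (by omega)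
    have hexp : ∀ r, ψ r = ∑ i ∈ Finset.range (D + 1), g.coeff i * nd.τ r ^ i := by
      intro r
      rw [← hev r, Polynomial.eval_eq_sum_range]
    have h3 : ∑ r, nd.γ r * ψ r * nd.τ r ^ (k + 2 - D) =
        ∑ i ∈ Finset.range (D + 1), g.coeff i * ∑ r, nd.γ r * nd.τ r ^ (i + (k + 2 - D)) := by
      simp_rw [hexp, Finset.mul_sum, Finset.sum_mul]
      rw [Finset.sum_comm]
      refine Finset.sum_congr rfl fun i _ => Finset.sum_congr rfl fun r _ => ?_
      rw [pow_add]
      ring
    rw [h3, Finset.sum_range_succ] at hj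
    have h4 : ∑ i ∈ Finset.range D, g.coeff i * ∑ r, nd.γ r * nd.τ r ^ (i + (k + 2 - D)) = 0 := by
      refine Finset.sum_eq_zero fun i hi => ?_
      have hi' := Finset.mem_range.mp hi
      rw [nd.sum (i + (k + 2 - D)) (by omega), if_neg (by omega), mul_zero]
    rw [h4, zero_add] at hj
    have h5 : D + (k + 2 - D) = k + 2 := by omega
    rw [h5] at hj
    rcases mul_eq_zero.mp hj with h6 | h6
    · exact hg0 (Polynomial.leadingCoeff_eq_zero.mp h6)
    · exact nd.last h6
  refine ⟨fun j => g.coeff j, fun r => ?_⟩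
  rw [← hev r, Polynomial.eval_eq_sum_range' (Nat.lt_succ_of_le hnd)]

end Pool.Agent.W271.WLP
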